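import Pool.Agent.Lead.IP.Recur

/-!
# Duality (D4 of the L-shaped corridor, MP_35f495_pr): the mirrored Kreweras complement

`sg σ p q` : the interval of sites between the positions `p` and `q` is a union of blocks of `σ`.
`kap n σ` : the dual state, read from right to left (index `i` is the position `n - i`).
`kap n (act i σ) = act (2n-1-i) (kap n σ)` on noncrossing states.
-/

set_option autoImplicit false

namespace IP
open Finset Real

set_option warn.classDefReducibility false

/-- the complement: positions `p`, `q` are related if the sites between them form a union of blocks -/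
def sg (σ : St) : St where
  r p q := ∀ x y, σ x y → ((x < p ↔ x < q) ↔ (y < p ↔ y < q))
  iseqv := by
    refine ⟨fun p x y _ => by simp, fun {p q} h x y hxy => ?_, fun {p q r} h h' x y hxy => ?_⟩
    · have := h x y hxy
      omega
    · have h1 := h x y hxy
      have h2 := h' x y hxy
      omega

theorem sg_apply (σ : St) (p q : ℕ) :
    sg σ p q ↔ ∀ x y, σ x y → ((x < p ↔ x < q) ↔ (y < p ↔ y < q)) := Iff.rfl

/-- the mirrored dual state -/
def kap (n : ℕ) (σ : St) : St := Setoid.comap (fun i => n - i) (sg σ)

theorem kap_apply (n : ℕ) (σ : St) (i j : ℕ) : kap n σ i j ↔ sg σ (n - i) (n - j) := Iff.rfl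

theorem sg_mono {σ τ : St} (h : σ ≤ τ) : sg τ ≤ sg σ := fun _ _ hpq x y hxy => hpq x y (h hxy)

theorem kap_W (n : ℕ) (σ : St) : kap n σ ∈ W n := by
  intro i j hi hj
  show sg σ (n - i) (n - j)
  rw [Nat.sub_eq_zero_of_le hi, Nat.sub_eq_zero_of_le hj]

theorem sg_cross {σ : St} {A B C D : ℕ} (h1 : D ≤ C) (h2 : C ≤ B) (h3 : B ≤ A)
    (hAC : sg σ A C) (hBD : sg σ B D) : sg σ A B := by
  intro x y hxy
  have e1 := hAC x y hxy
  have e2 := hBD x y hxy
  omega

theorem kap_NC (n : ℕ) (σ : St) : kap n σ ∈ NC := by
  intro a b c d hab hbc hcd hac hbd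
  exact sg_cross (σ := σ) (A := n - a) (B := n - b) (C := n - c) (D := n - d) (by omega) (by omega)
    (by omega) hac hbd

/-! ### generators -/

theorem sg_join (k : ℕ) (σ : St) (p q : ℕ) :
    sg (join k (k + 1) σ) p q ↔ p = q ∨ (p ≠ k + 1 ∧ q ≠ k + 1 ∧ sg σ p q) := by
  constructor
  · intro h
    have h1 := h k (k + 1) (join_rel k (k + 1) σ)
    have h2 : sg σ p q := sg_mono (le_join k (k + 1) σ) h
    by_cases hp : p = k + 1
    · left; omega
    · right
      refine ⟨hp, by omega, h2⟩
  · rintro (rfl | ⟨hp, hq, h⟩)
    · exact (sg _).refl _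
    · intro x y hxy
      rcases hxy with hxy | ⟨h1, h2⟩ | ⟨h1, h2⟩
      · exact h x y hxy
      · have e1 := h x k h1
        have e2 := h (k + 1) y h2
        omega
      · have e1 := h x (k + 1) h1
        have e2 := h k y h2
        omega

/-- key lemma: a saturated interval of `detach k σ` -/
theorem sg_detach_aux {σ : St} (hσ : σ ∈ NC) {k p q : ℕ} (hpq : p ≤ q)
    (h : sg (detach k σ) p q) :
    sg σ p q ∨ (sg σ p k ∧ sg σ (k + 1) q) ∨ (sg σ p (k + 1) ∧ sg σ k q) := by
  have hd : ∀ x y, x ≠ k → y ≠ k → σ x y → ((p ≤ x ∧ x < q) ↔ (p ≤ y ∧ y < q)) := by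
    intro x y hx hy hxy
    have := h x y (Or.inr ⟨hx, hy, hxy⟩)
    omega
  by_cases hb : ∃ b, b ≠ k ∧ σ k b
  swap
  · left
    push Not at hb
    intro x y hxy
    by_cases hx : x = k
    · by_cases hy : y = k
      · rw [hx, hy]
      · exact absurd (hx ▸ hxy) (hb y hy)
    · by_cases hy : y = k
      · exact absurd (hy ▸ σ.symm hxy) (hb x hx)
      · exact h x y (Or.inr ⟨hx, hy, hxy⟩)
  obtain ⟨b, hbk, hkb⟩ := hb
  have hB : ∀ x, x ≠ k → σ x k → ((p ≤ x ∧ x < q) ↔ (p ≤ b ∧ b < q)) := fun x hx hxk =>
    hd x b hx hbk (σ.trans hxk hkb)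
  -- noncrossing facts
  have nc := hσ
  by_cases hk : p ≤ k ∧ k < q
  · by_cases hbD : p ≤ b ∧ b < q
    · left
      intro x y hxy
      by_cases hx : x = k
      · by_cases hy : y = k
        · rw [hx, hy]
        · have := hB y hy (hx ▸ σ.symm hxy)
          omega
      · by_cases hy : y = k
        · have := hB x hx (hy ▸ hxy)
          omega
        · exact h x y (Or.inr ⟨hx, hy, hxy⟩)
    · -- `k` inside, the rest of its block outside
      right; left
      have key : ∀ x y, σ x y → p ≤ x → x < k → k < y → y < q → False := by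
        intro x y hxy h1 h2 h3 h4
        rcases Nat.lt_or_ge b p with hb1 | hb1
        · have h5 : σ b x := nc b x k y (by omega) h2 h3 (σ.symm hkb) hxy
          have := hB x (by omega) (σ.trans (σ.symm h5) (σ.symm hkb))
          omega
        · have h5 : σ x k := nc x k y b h2 h3 (by omega) hxy hkb
          have := hB x (by omega) h5
          omega
      refine ⟨?_, ?_⟩
      · have aux : ∀ x y, σ x y → p ≤ x → x < k → p ≤ y ∧ y < k := by
          intro x y hxy h1 h2
          by_cases hy : y = k
          · have := hB x (by omega) (hy ▸ hxy)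
            omega
          · have e1 := hd x y (by omega) hy hxy
            have e2 := key x y hxy h1 h2
            by_contra hcon
            exact e2 (by omega) (by omega)
        intro x y hxy
        have e1 := aux x y hxy
        have e2 := aux y x (σ.symm hxy)
        omega
      · have aux : ∀ x y, σ x y → k < x → x < q → k < y ∧ y < q := by
          intro x y hxy h1 h2
          by_cases hy : y = k
          · have := hB x (by omega) (hy ▸ hxy)
            omega
          · have e1 := hd x y (by omega) hy hxy
            have e2 := key y x (σ.symm hxy)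
            by_contra hcon
            exact e2 (by omega) (by omega) (by omega) (by omega)
        intro x y hxy
        have e1 := aux x y hxy
        have e2 := aux y x (σ.symm hxy)
        omega
  · by_cases hbD : p ≤ b ∧ b < q
    swap
    · left
      intro x y hxy
      by_cases hx : x = k
      · by_cases hy : y = k
        · rw [hx, hy]
        · have := hB y hy (hx ▸ σ.symm hxy)
          omega
      · by_cases hy : y = k
        · have := hB x hx (hy ▸ hxy)
          omega
        · exact h x y (Or.inr ⟨hx, hy, hxy⟩)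
    · -- `k` outside, the rest of its block inside
      right; right
      rcases Nat.lt_or_ge k p with hkp | hkp
      · -- `k < p ≤ b < q`
        have aux : ∀ x y, σ x y → k < x → x < p → k < y ∧ y < p := by
          intro x y hxy h1 h2
          have hxk : ¬ σ x k := fun h' => by
            have := hB x (by omega) h'
            omega
          by_cases hy : y = k
          · exact absurd (hy ▸ hxy) hxk
          · have e1 := hd x y (by omega) hy hxy
            by_contra hcon
            rcases Nat.lt_or_ge y k with h3 | h3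
            · exact hxk (by
                have := nc y k x b h3 h1 (by omega) (σ.symm hxy) hkb
                exact σ.trans hxy this)
            · have := nc k x b y h1 (by omega) (by omega) hkb hxy
              exact hxk (σ.symm this)
        refine ⟨?_, ?_⟩
        · intro x y hxy
          have e1 := aux x y hxy
          have e2 := aux y x (σ.symm hxy)
          omega
        · have aux2 : ∀ x y, σ x y → k ≤ x → x < q → k ≤ y ∧ y < q := by
            intro x y hxy h1 h2
            by_cases hx : x = k
            · by_cases hy : y = k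
              · omega
              · have := hB y hy (hx ▸ σ.symm hxy)
                omega
            · by_cases hy : y = k
              · omega
              · have e1 := hd x y hx hy hxy
                have e2 := aux x y hxy
                omega
          intro x y hxy
          have e1 := aux2 x y hxy
          have e2 := aux2 y x (σ.symm hxy)
          omega
      · -- `p ≤ b < q ≤ k`
        have aux : ∀ x y, σ x y → q ≤ x → x < k → q ≤ y ∧ y < k := by
          intro x y hxy h1 h2
          have hxk : ¬ σ x k := fun h' => by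
            have := hB x (by omega) h'
            omega
          by_cases hy : y = k
          · exact absurd (hy ▸ hxy) hxk
          · have e1 := hd x y (by omega) hy hxy
            by_contra hcon
            rcases Nat.lt_or_ge k y with h3 | h3
            · have := nc b x k y (by omega) h2 h3 (σ.symm hkb) hxy
              exact hxk (σ.trans (σ.symm this) (σ.symm hkb))
            · have := nc y b x k (by omega) (by omega) h2 (σ.symm hxy) (σ.symm hkb)
              exact hxk (σ.trans hxy (σ.trans this (σ.symm hkb)))
        refine ⟨?_, ?_⟩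
        · have aux2 : ∀ x y, σ x y → p ≤ x → x < k + 1 → p ≤ y ∧ y < k + 1 := by
            intro x y hxy h1 h2
            by_cases hx : x = k
            · by_cases hy : y = k
              · omega
              · have := hB y hy (hx ▸ σ.symm hxy)
                omega
            · by_cases hy : y = k
              · omega
              · have e1 := hd x y hx hy hxy
                have e2 := aux x y hxy
                omega
          intro x y hxy
          have e1 := aux2 x y hxy
          have e2 := aux2 y x (σ.symm hxy)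
          omega
        · intro x y hxy
          have e1 := aux x y hxy
          have e2 := aux y x (σ.symm hxy)
          omega

theorem sg_detach {σ : St} (hσ : σ ∈ NC) (k : ℕ) : sg (detach k σ) = join (k + 1) k (sg σ) := by
  have hle : detach k σ ≤ σ := by
    intro x y hxy
    rcases hxy with rfl | ⟨_, _, h⟩
    · exact σ.refl _
    · exact h
  apply le_antisymm
  · intro p q h
    rcases Nat.le_total p q with hpq | hpq
    · rcases sg_detach_aux hσ hpq h with h1 | ⟨h1, h2⟩ | ⟨h1, h2⟩
      · exact Or.inl h1
      · exact Or.inr (Or.inr ⟨h1, h2⟩)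
      · exact Or.inr (Or.inl ⟨h1, h2⟩)
    · rcases sg_detach_aux hσ hpq ((sg _).symm h) with h1 | ⟨h1, h2⟩ | ⟨h1, h2⟩
      · exact Or.inl ((sg σ).symm h1)
      · exact Or.inr (Or.inl ⟨(sg σ).symm h2, (sg σ).symm h1⟩)
      · exact Or.inr (Or.inr ⟨(sg σ).symm h2, (sg σ).symm h1⟩)
  · rw [join_le_iff]
    refine ⟨sg_mono hle, ?_⟩
    intro x y hxy
    rcases hxy with rfl | ⟨h1, h2, _⟩
    · rfl
    · omega

theorem kap_act {n i : ℕ} (hi : i < 2 * n) {σ : St} (hσ : σ ∈ NC) :
    kap n (act i σ) = act (2 * n - 1 - i) (kap n σ) := by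
  obtain ⟨k, rfl | rfl⟩ := parity i
  · rw [act_even, show 2 * n - 1 - 2 * k = 2 * (n - 1 - k) + 1 by omega, act_odd]
    unfold kap
    rw [sg_detach hσ, join_comap (n - 1 - k) (n - 1 - k + 1) (fun i => n - i)]
    have e1 : n - (n - 1 - k) = k + 1 := by omega
    have e2 : n - (n - 1 - k + 1) = k := by omega
    simp only [e1, e2]
  · rw [act_odd, show 2 * n - 1 - (2 * k + 1) = 2 * (n - 1 - k) by omega, act_even]
    ext x y
    rw [kap_apply, sg_join, detach_apply, kap_apply]
    constructor
    · rintro (h | ⟨h1, h2, h3⟩)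
      · by_cases hxy : x = y
        · exact Or.inl hxy
        · right
          refine ⟨by omega, by omega, ?_⟩
          rw [h]
      · right
        exact ⟨by omega, by omega, h3⟩
    · rintro (rfl | ⟨h1, h2, h3⟩)
      · exact Or.inl rfl
      · right
        exact ⟨by omega, by omega, h3⟩

/-! ### insertion and deletion of arcs -/

theorem sg_insS (k : ℕ) (σ : St) : sg (insS k σ) = Setoid.comap (coll k) (sg σ) := by
  ext P Q
  rw [comap_apply]
  have hkey : ∀ x, x ≠ k → ((x < P ↔ x < Q) ↔ (unskip k x < coll k P ↔ unskip k x < coll k Q)) := by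
    intro x hx
    unfold unskip coll
    split_ifs <;> omega
  constructor
  · intro h u v huv
    have h1 := h (skip k u) (skip k v)
      (Or.inr ⟨skip_ne k u, skip_ne k v, by rw [unskip_skip, unskip_skip]; exact huv⟩)
    have h2 := hkey (skip k u) (skip_ne k u)
    have h3 := hkey (skip k v) (skip_ne k v)
    rw [unskip_skip] at h2 h3
    rw [← h2, ← h3]
    exact h1
  · intro h x y hxy
    rcases hxy with rfl | ⟨h1, h2, h3⟩
    · rfl
    · rw [hkey x h1, hkey y h2]
      exact h _ _ h3

theorem sg_comap_coll (k : ℕ) (σ : St) : sg (Setoid.comap (coll k) σ) = insS (k + 1) (sg σ) := by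
  ext P Q
  rw [bb_insS_iff]
  have hc : ∀ u, coll k (skip (k + 1) u) = u := by
    intro u
    unfold coll skip
    split_ifs <;> omega
  constructor
  · intro h
    have h0 := h k (k + 1) (by
      show σ (coll k k) (coll k (k + 1))
      have e1 : coll k k = k := by unfold coll; simp
      have e2 : coll k (k + 1) = k := by unfold coll; simp
      rw [e1, e2])
    by_cases hPQ : P = Q
    · exact Or.inl hPQ
    · right
      have hP : P ≠ k + 1 := by omega
      have hQ : Q ≠ k + 1 := by omega
      refine ⟨hP, hQ, ?_⟩
      intro u v huv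
      have h1 := h (skip (k + 1) u) (skip (k + 1) v) (by
        show σ (coll k (skip (k + 1) u)) (coll k (skip (k + 1) v))
        rw [hc, hc]; exact huv)
      have e : ∀ u, ((skip (k + 1) u < P ↔ skip (k + 1) u < Q) ↔
          (u < unskip (k + 1) P ↔ u < unskip (k + 1) Q)) := by
        intro u
        unfold skip unskip
        split_ifs <;> omega
      rw [← e, ← e]
      exact h1
  · rintro (rfl | ⟨hP, hQ, h⟩)
    · exact (sg _).refl _
    · intro x y hxy
      have h1 := h (coll k x) (coll k y) hxy
      have e : ∀ x, ((x < P ↔ x < Q) ↔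
          (coll k x < unskip (k + 1) P ↔ coll k x < unskip (k + 1) Q)) := by
        intro u
        unfold coll unskip
        split_ifs <;> omega
      rw [e, e]
      exact h1

theorem kap_ins {n i : ℕ} (hi : i ≤ 2 * n + 1) (σ : St) :
    kap (n + 1) (ins i σ) = ins (2 * n + 1 - i) (kap n σ) := by
  obtain ⟨k, rfl | rfl⟩ := parity i
  · rw [bb_ins_even, show 2 * n + 1 - 2 * k = 2 * (n - k) + 1 by omega, bb_ins_odd]
    unfold kap
    rw [sg_insS, comap_comap, comap_comap]
    apply comap_congr'
    intro x
    simp only
    unfold coll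
    split_ifs <;> omega
  · rw [bb_ins_odd, show 2 * n + 1 - (2 * k + 1) = 2 * (n - k) by omega, bb_ins_even]
    ext x y
    rw [kap_apply, sg_comap_coll, bb_insS_iff, bb_insS_iff]
    have e : ∀ x, x ≠ n - k → unskip (k + 1) (n + 1 - x) = n - unskip (n - k) x := by
      intro x hx
      unfold unskip
      split_ifs <;> omega
    constructor
    · rintro (h | ⟨h1, h2, h3⟩)
      · by_cases hxy : x = y
        · exact Or.inl hxy
        · right
          refine ⟨by omega, by omega, ?_⟩
          rw [kap_apply, ← e x (by omega), ← e y (by omega), h]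
      · right
        refine ⟨by omega, by omega, ?_⟩
        rw [kap_apply, ← e x (by omega), ← e y (by omega)]
        exact h3
    · rintro (rfl | ⟨h1, h2, h3⟩)
      · exact Or.inl rfl
      · right
        refine ⟨by omega, by omega, ?_⟩
        rw [e x h1, e y h2]
        exact h3

theorem ins_injective (i : ℕ) : Function.Injective (ins i) := fun σ τ h => by
  rw [← del_ins i σ, h, del_ins]

theorem kap_del {n i : ℕ} (hi : i ≤ 2 * n + 1) {σ : St} (hσ : σ ∈ NC) :
    kap n (del i σ) = del (2 * n + 1 - i) (kap (n + 1) σ) := by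
  apply ins_injective (2 * n + 1 - i)
  rw [← kap_ins hi, ins_del, ins_del, kap_act (by omega) hσ]
  congr 1

/-! ### linear maps -/

/-- the dual vector -/
noncomputable def Ka (n : ℕ) : M →ₗ[ℝ] M := Finsupp.lmapDomain ℝ ℝ (kap n)

theorem Ka_single (n : ℕ) (σ : St) (x : ℝ) :
    Ka n (Finsupp.single σ x) = Finsupp.single (kap n σ) x := by
  unfold Ka
  rw [Finsupp.lmapDomain_apply, Finsupp.mapDomain_single]

theorem lmap_ext_NC {N : Type*} [AddCommMonoid N] [Module ℝ N] {f g : M →ₗ[ℝ] N}
    (h : ∀ σ ∈ NC, f (Finsupp.single σ 1) = g (Finsupp.single σ 1)) {v : M} (hv : v ∈ Sup NC) :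
    f v = g v := by
  classical
  rw [← Finsupp.sum_single v]
  unfold Finsupp.sum
  rw [map_sum, map_sum]
  apply Finset.sum_congr rfl
  intro σ hσ
  have h1 : σ ∈ NC := (Finsupp.mem_supported ℝ v).1 hv (Finset.mem_coe.2 hσ)
  have h2 : (Finsupp.single σ (v σ) : M) = v σ • Finsupp.single σ 1 := by
    rw [Finsupp.smul_single, smul_eq_mul, mul_one]
  rw [h2, map_smul, map_smul, h σ h1]

theorem Ka_E {n i : ℕ} (hi : i < 2 * n) {v : M} (hv : v ∈ Sup NC) :
    Ka n (E i v) = E (2 * n - 1 - i) (Ka n v) := by
  refine lmap_ext_NC (f := Ka n ∘ₗ E i) (g := E (2 * n - 1 - i) ∘ₗ Ka n) (fun σ hσ => ?_) hv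
  rw [LinearMap.comp_apply, LinearMap.comp_apply, Ka_single]
  unfold E
  rw [Finsupp.lmapDomain_apply, Finsupp.mapDomain_single, Finsupp.lmapDomain_apply,
    Finsupp.mapDomain_single, Ka_single, kap_act hi hσ]

theorem Ka_Rt {n i : ℕ} (hi : i < 2 * n) (u : ℝ) {v : M} (hv : v ∈ Sup NC) :
    Ka n (Rt i u v) = Rt (2 * n - 1 - i) u (Ka n v) := by
  rw [Rt_apply, Rt_apply, map_add, map_smul, map_smul, Ka_E hi hv]

theorem Ka_De {n i : ℕ} (hi : i ≤ 2 * n + 1) {v : M} (hv : v ∈ Sup NC) :
    Ka n (De i v) = De (2 * n + 1 - i) (Ka (n + 1) v) := by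
  refine lmap_ext_NC (f := Ka n ∘ₗ De i) (g := De (2 * n + 1 - i) ∘ₗ Ka (n + 1))
    (fun σ hσ => ?_) hv
  rw [LinearMap.comp_apply, LinearMap.comp_apply, Ka_single]
  unfold De
  rw [Finsupp.lmapDomain_apply, Finsupp.mapDomain_single, Finsupp.lmapDomain_apply,
    Finsupp.mapDomain_single, Ka_single, kap_del hi hσ]

theorem Ka_In {n i : ℕ} (hi : i ≤ 2 * n + 1) (v : M) :
    Ka (n + 1) (In i v) = In (2 * n + 1 - i) (Ka n v) := by
  have : Ka (n + 1) ∘ₗ In i = In (2 * n + 1 - i) ∘ₗ Ka n := by
    apply Finsupp.lhom_ext'
    intro σ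
    apply LinearMap.ext_ring
    simp only [LinearMap.comp_apply, Finsupp.lsingle_apply]
    rw [Ka_single]
    unfold In
    rw [Finsupp.lmapDomain_apply, Finsupp.mapDomain_single, Finsupp.lmapDomain_apply,
      Finsupp.mapDomain_single, Ka_single, kap_ins hi]
  exact LinearMap.congr_fun this v

theorem Ka_Sup (n : ℕ) (v : M) : Ka n v ∈ Sup (W n) := by
  have h : v ∈ Sup (Set.univ : Set St) := (Finsupp.mem_supported ℝ v).2 (Set.subset_univ _)
  exact lmap_Sup (fun σ _ => kap_W n σ) h

theorem Ka_NC (n : ℕ) (v : M) : Ka n v ∈ Sup NC := by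
  have h : v ∈ Sup (Set.univ : Set St) := (Finsupp.mem_supported ℝ v).2 (Set.subset_univ _)
  exact lmap_Sup (fun σ _ => kap_NC n σ) h

theorem tot_Ka (n : ℕ) (v : M) : tot (Ka n v) = tot v := by
  have : tot ∘ₗ Ka n = tot := by
    apply Finsupp.lhom_ext'
    intro σ
    apply LinearMap.ext_ring
    simp only [LinearMap.comp_apply, Finsupp.lsingle_apply]
    rw [Ka_single]
    simp [tot]
  exact LinearMap.congr_fun this v

end IP
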