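import Pool.Agent.Helper34.LDual.Kap
import Pool.Agent.Helper60.Slit.ZChi
import Pool.Agent.Helper60.Slit.ChiB

/-!
# Duality (D4 of the L-shaped corridor, MP_35f495_pr): `V n b` and the dual vector

`Ka n (V n b) = V n (fun j => -b (2n-j))`.
-/

set_option autoImplicit false

namespace IP
open Finset Real

/-! ### crossing -/

theorem Rt_In_cross (i : ℕ) (u : ℝ) (v : M) :
    Rt i u (In (i + 1) v) = Rt (i + 1) (π / 3 - u) (In i v) := by
  rw [Rt_apply, Rt_apply, E_In_succ, E_succ_In]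
  have e1 : s (-u) = Real.sin (π / 3 - u) := by unfold s; ring_nf
  have e2 : s (-(π / 3 - u)) = Real.sin u := by unfold s; ring_nf
  rw [e1, e2]
  abel

theorem De_Rt_cross (i : ℕ) (u : ℝ) (v : M) :
    De (i + 1) (Rt i (π / 3 - u) v) = De i (Rt (i + 1) u v) := by
  rw [Rt_apply, Rt_apply]
  simp only [map_add, map_smul]
  rw [De_succ_E, De_E_succ]
  have e1 : s (-u) = Real.sin (π / 3 - u) := by unfold s; ring_nf
  have e2 : s (-(π / 3 - u)) = Real.sin u := by unfold s; ring_nf
  rw [e1, e2]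
  abel

/-- reversed sequence with changed signs -/
noncomputable def rv (n : ℕ) (b : ℕ → ℝ) : ℕ → ℝ := fun j => -b (2 * n - j)

/-- `up off c k = Rt (off+k-1) (π/6 - c (k-1)) ∘ ... ∘ Rt off (π/6 - c 0)` -/
noncomputable def up (off : ℕ) (c : ℕ → ℝ) : ℕ → M →ₗ[ℝ] M
  | 0 => LinearMap.id
  | k + 1 => Rt (off + k) (π / 6 - c k) ∘ₗ up off c k

theorem up_zero (off : ℕ) (c : ℕ → ℝ) (v : M) : up off c 0 v = v := rfl

theorem up_succ (off : ℕ) (c : ℕ → ℝ) (k : ℕ) (v : M) :
    up off c (k + 1) v = Rt (off + k) (π / 6 - c k) (up off c k v) := rfl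

theorem up_NC (off : ℕ) (c : ℕ → ℝ) (k : ℕ) {v : M} (hv : v ∈ Sup NC) : up off c k v ∈ Sup NC := by
  induction k with
  | zero => exact hv
  | succ k ih => rw [up_succ]; exact Rt_NC _ _ ih

/-- a pair created at the left and moved to the right -/
theorem up_In (c : ℕ → ℝ) (k : ℕ) (v : M) : up 1 c k (In 0 v) = row 0 c k (In k v) := by
  induction k with
  | zero => rfl
  | succ k ih =>
    rw [up_succ, ih, show 1 + k = k + 1 by omega,
      Rt_row_right 0 c k (by omega : 0 + k + 1 ≤ k + 1), row_succ]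
    congr 1
    have h := Rt_In_cross k (c k + π / 6) v
    rw [show π / 3 - (c k + π / 6) = π / 6 - c k by ring] at h
    rw [← h, Nat.zero_add]

/-- commuting an R-matrix to the right of `up` -/
theorem up_Rt_right (off : ℕ) (c : ℕ → ℝ) (k : ℕ) {j : ℕ} (h : off + k + 1 ≤ j) (u : ℝ) (v : M) :
    Rt j u (up off c k v) = up off c k (Rt j u v) := by
  induction k generalizing v with
  | zero => rfl
  | succ k ih =>
    rw [up_succ, up_succ, ← ih (by omega), Rt_comm (by omega : off + k + 2 ≤ j)]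

/-- the two strands of the pair are closed at the right -/
theorem De_up (c : ℕ → ℝ) (k : ℕ) (v : M) : De k (up 0 c k v) = De 0 (row 1 c k v) := by
  induction k generalizing v with
  | zero => rfl
  | succ k ih =>
    rw [up_succ, row_succ, ← ih, Nat.zero_add]
    have h := De_Rt_cross k (c k + π / 6) (up 0 c k v)
    rw [show π / 3 - (c k + π / 6) = π / 6 - c k by ring] at h
    rw [h, show 1 + k = k + 1 by omega, up_Rt_right 0 c k (by omega : 0 + k + 1 ≤ k + 1)]

theorem ins_wall {n : ℕ} {σ : St} (hσ : σ ∈ W n) : ins (2 * n + 1) σ = σ := by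
  rw [bb_ins_odd]
  apply comap_self
  intro x
  unfold coll
  split_ifs with h
  · exact σ.refl x
  · exact hσ _ _ (by omega) (by omega)

theorem In_wall {n : ℕ} {v : M} (hv : v ∈ Sup (W n)) : In (2 * n + 1) v = v := by
  classical
  rw [← Finsupp.sum_single v]
  unfold Finsupp.sum
  rw [map_sum]
  apply Finset.sum_congr rfl
  intro σ hσ
  have h1 : σ ∈ W n := (Finsupp.mem_supported ℝ v).1 hv (Finset.mem_coe.2 hσ)
  unfold In
  rw [Finsupp.lmapDomain_apply, Finsupp.mapDomain_single, ins_wall h1]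

/-- the mirrored row -/
theorem Ka_row {n : ℕ} (off : ℕ) (b : ℕ → ℝ) (k : ℕ) (h : off + k ≤ 2 * n + 2) {v : M}
    (hv : v ∈ Sup NC) :
    Ka (n + 1) (row off b k v) =
      up (2 * n + 2 - off - k) (fun j => -b (k - 1 - j)) k (Ka (n + 1) v) := by
  induction k generalizing v with
  | zero => rfl
  | succ k ih =>
    rw [row_succ, ih (by omega) (Rt_NC _ _ hv), Ka_Rt (by omega) _ hv]
    have key : ∀ m, m ≤ k → ∀ w : M,
        up (2 * n + 2 - off - k) (fun j => -b (k - 1 - j)) m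
          (Rt (2 * n + 2 - off - (k + 1)) (b k + π / 6) w) =
        up (2 * n + 2 - off - (k + 1)) (fun j => -b (k + 1 - 1 - j)) (m + 1) w := by
      intro m hm w
      induction m with
      | zero =>
        rw [up_zero, up_succ, up_zero]
        congr 1
        simp only [Nat.add_sub_cancel, Nat.sub_zero]
        ring_nf
      | succ m ihm =>
        rw [up_succ, ihm (by omega), up_succ _ _ (m + 1)]
        have e1 : 2 * n + 2 - off - k + m = 2 * n + 2 - off - (k + 1) + (m + 1) := by omega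
        have e2 : k - 1 - m = k + 1 - 1 - (m + 1) := by omega
        rw [e1]
        simp only [e2]
    have e : 2 * (n + 1) - 1 - (off + k) = 2 * n + 2 - off - (k + 1) := by omega
    rw [e, key k le_rfl]

theorem Ka_Tt (n : ℕ) (b : ℕ → ℝ) {v : M} (hv : v ∈ Sup (W n)) (hv' : v ∈ Sup NC) :
    Ka n (Tt n b v) = Tt n (rv n b) (Ka n v) := by
  have hIn : Ka (n + 1) v = In 0 (Ka n v) := by
    have h := Ka_In (n := n) (i := 2 * n + 1) le_rfl v
    rw [In_wall hv, Nat.sub_self] at h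
    exact h
  have hrow : row 0 b (2 * n + 1) v ∈ Sup NC := row_NC _ _ _ hv'
  rw [Tt_apply, Ka_De (Nat.zero_le _) (row_NC _ _ _ hrow), Ka_row 1 b (2 * n + 1) (by omega) hrow,
    Ka_row 0 b (2 * n + 1) (by omega) hv', hIn]
  have e1 : 2 * n + 2 - 1 - (2 * n + 1) = 0 := by omega
  have e2 : 2 * n + 2 - 0 - (2 * n + 1) = 1 := by omega
  have e3 : (fun j => -b (2 * n + 1 - 1 - j)) = rv n b := by
    funext j
    unfold rv
    rw [Nat.add_sub_cancel]
  rw [e1, e2, e3, Nat.sub_zero, De_up, up_In, Tt_apply, In_wall (Ka_Sup n v)]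

theorem nrm_rv (n : ℕ) (b : ℕ → ℝ) : nrm n (rv n b) = nrm n b := by
  unfold nrm
  rw [← Finset.prod_range_reflect (fun j => s (b j + π / 6) ^ 2)]
  apply Finset.prod_congr rfl
  intro j hj
  rw [Finset.mem_range] at hj
  unfold rv
  rw [show 2 * n + 1 - 1 - j = 2 * n - j by omega]
  rw [rc_s_good, rc_s_good, Real.cos_neg]

theorem rv_Cube (n : ℕ) {b : ℕ → ℝ} (hb : b ∈ Cube) : rv n b ∈ Cube := fun j => by
  unfold rv
  rw [abs_neg]
  exact hb _

theorem Ka_P (n : ℕ) {b : ℕ → ℝ} (hb : b ∈ Cube) : Ka n (P n b) = P n (rv n b) := by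
  have h1 : Tt n (rv n b) (Ka n (P n b)) = nrm n (rv n b) • Ka n (P n b) := by
    rw [← Ka_Tt n b (P_Sup n b) (P_NC n b), Tt_P n hb, map_smul, nrm_rv]
  have h2 := P_unique n (rv_Cube n hb) (Ka_Sup n _) h1
  rw [h2, tot_Ka, tot_P n hb, one_smul]

/-- the reversal of `0, ..., 2n` -/
def rperm (n : ℕ) : Equiv.Perm ℕ :=
  Function.Involutive.toPerm (fun j => if j ≤ 2 * n then 2 * n - j else j) (fun j => by
    by_cases h : j ≤ 2 * n
    · simp only [if_pos h, if_pos (Nat.sub_le _ _)]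
      omega
    · simp only [if_neg h])

theorem rperm_apply (n j : ℕ) : rperm n j = if j ≤ 2 * n then 2 * n - j else j := rfl

theorem Z_rv (n : ℕ) (b : ℕ → ℝ) : Z n (rv n b) = Z n b := by
  have h1 := Slit.Z_Chi n (rv n b)
  have h2 := Slit.Z_Chi n b
  have h3 : Slit.Chi (2 * n + 1) (Slit.xx (rv n b)) = Slit.Chi (2 * n + 1) (Slit.xx b) := by
    rw [← Slit.Chi_perm (rperm n) (fun j => by rw [rperm_apply]; split_ifs <;> omega) (Slit.xx b)]
    apply Slit.Chi_congr
    intro j hj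
    unfold Slit.xx rv
    rw [rperm_apply, if_pos (by omega), mul_neg, Real.cos_neg]
  rw [h3, ← h2] at h1
  exact mul_left_cancel₀ (by positivity) h1

theorem rv_update (n : ℕ) (b : ℕ → ℝ) {j : ℕ} (hj : j ≤ 2 * n) (x : ℝ) {i : ℕ} (hi : i ≤ 2 * n) :
    rv n (Function.update b j x) i = Function.update (rv n b) (2 * n - j) (-x) i := by
  unfold rv
  by_cases h : 2 * n - i = j
  · have h' : i = 2 * n - j := by omega
    rw [h, Function.update_self, h', Function.update_self]
  · rw [Function.update_of_ne h, Function.update_of_ne (by omega)]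

theorem Sep_comp_rv (n : ℕ) {m : ℕ} {F : (ℕ → ℝ) → ℝ} (hF : Sep (2 * n + 1) m F) :
    Sep (2 * n + 1) m (fun b => F (rv n b)) := by
  refine ⟨fun b j hj => ?_, fun b b' h => ?_⟩
  · have h1 := (hF.1 (rv n b) (2 * n - j) (by omega)).comp_neg
    refine TP.tb_congr h1 (fun x => ?_)
    apply hF.2
    intro i hi
    exact rv_update n b (by omega) x (by omega)
  · apply hF.2
    intro i hi
    unfold rv
    rw [h _ (by omega)]

/-- **Duality**: the dual vector of `V n b` -/
theorem Ka_V (n : ℕ) (b : ℕ → ℝ) : Ka n (V n b) = V n (rv n b) := by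
  ext σ
  rw [← sub_eq_zero]
  refine Sep.eq_zero ((vs_Sep_lin n (Finsupp.lapply σ ∘ₗ Ka n)).sub
    (Sep_comp_rv n (V_Sep n σ))) ?_ b
  intro b hb
  have h1 : V n b = Z n b • P n b := by
    rw [P_eq n hb, smul_smul, mul_inv_cancel₀ (Z_ne n hb), one_smul]
  have h2 : V n (rv n b) = Z n b • P n (rv n b) := by
    rw [P_eq n (rv_Cube n hb), smul_smul, Z_rv, mul_inv_cancel₀ (Z_ne n hb), one_smul]
  rw [LinearMap.comp_apply, Finsupp.lapply_apply, h1, h2, map_smul, Ka_P n hb, sub_self]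

end IP
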